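import Pool.Agent.helper35.MR.SpecB

/-!
# Project mr: EV, values of slices and of products on vectors
-/

open Finset

namespace Pool.Agent.helper35.MR

open Pool.Agent.RRank

section
variable {K X Y Z W : Type} [Field K] [Fintype X] [Fintype Y] [Fintype Z] [Fintype W]
  (u : X → K) (v : Y → K) (w : Z → K) (q : W → K)

theorem EV_add (T T' : X → Y → Z → W → K) :
    ev4 (fun x y z w => T x y z w + T' x y z w) u v w q = ev4 T u v w q + ev4 T' u v w q := by
  unfold ev4
  simp only [add_mul, Finset.sum_add_distrib]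

theorem EV_sum {ι : Type} [Fintype ι] (T : ι → X → Y → Z → W → K) :
    ev4 (fun x y z w => ∑ n, T n x y z w) u v w q = ∑ n, ev4 (T n) u v w q := by
  classical
  have h : ∀ s : Finset ι, ev4 (fun x y z w => ∑ n ∈ s, T n x y z w) u v w q =
      ∑ n ∈ s, ev4 (T n) u v w q := by
    intro s
    induction s using Finset.induction_on with
    | empty => simp [ev4]
    | insert a s ha ih =>
      simp only [Finset.sum_insert ha]
      rw [EV_add, ih]
  exact h univ

theorem EV_c (c : K) (T : X → Y → Z → W → K) :
    ev4 (fun x y z w => c * T x y z w) u v w q = c * ev4 T u v w q := by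
  unfold ev4
  simp only [mul_assoc, Finset.mul_sum]

theorem EV_1 (a : X → K) (a' : Y → Z → W → K) (h : ev1 a u = 0) :
    ev4 (fun x y z w => a x * a' y z w) u v w q = 0 := by
  unfold ev4
  have : ∀ x, ∑ y, ∑ z, ∑ t, a x * a' y z t * (u x * v y * w z * q t) =
      (a x * u x) * ∑ y, ∑ z, ∑ t, a' y z t * (v y * w z * q t) := by
    intro x
    simp only [Finset.mul_sum]
    refine Finset.sum_congr rfl fun y _ => Finset.sum_congr rfl fun z _ =>
      Finset.sum_congr rfl fun t _ => by ring
  simp only [this]
  rw [← Finset.sum_mul]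
  unfold ev1 at h
  rw [h, zero_mul]

theorem EV_2 (b : Y → K) (b' : X → Z → W → K) (h : ev1 b v = 0) :
    ev4 (fun x y z w => b y * b' x z w) u v w q = 0 := by
  unfold ev4
  refine Finset.sum_eq_zero fun x _ => ?_
  have : ∀ y, ∑ z, ∑ t, b y * b' x z t * (u x * v y * w z * q t) =
      (b y * v y) * ∑ z, ∑ t, b' x z t * (u x * w z * q t) := by
    intro y
    simp only [Finset.mul_sum]
    refine Finset.sum_congr rfl fun z _ => Finset.sum_congr rfl fun t _ => by ring
  simp only [this]
  rw [← Finset.sum_mul]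
  unfold ev1 at h
  rw [h, zero_mul]

theorem EV_3 (c : Z → K) (c' : X → Y → W → K) (h : ev1 c w = 0) :
    ev4 (fun x y z w => c z * c' x y w) u v w q = 0 := by
  unfold ev4
  refine Finset.sum_eq_zero fun x _ => Finset.sum_eq_zero fun y _ => ?_
  have : ∀ z, ∑ t, c z * c' x y t * (u x * v y * w z * q t) =
      (c z * w z) * ∑ t, c' x y t * (u x * v y * q t) := by
    intro z
    simp only [Finset.mul_sum]
    refine Finset.sum_congr rfl fun t _ => by ring
  simp only [this]
  rw [← Finset.sum_mul]
  unfold ev1 at h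
  rw [h, zero_mul]

theorem EV_4 (d : W → K) (d' : X → Y → Z → K) (h : ev1 d q = 0) :
    ev4 (fun x y z w => d w * d' x y z) u v w q = 0 := by
  unfold ev4
  refine Finset.sum_eq_zero fun x _ => Finset.sum_eq_zero fun y _ =>
    Finset.sum_eq_zero fun z _ => ?_
  have : ∀ t, d t * d' x y z * (u x * v y * w z * q t) =
      (d t * q t) * (d' x y z * (u x * v y * w z)) := by
    intro t; ring
  simp only [this]
  rw [← Finset.sum_mul]
  unfold ev1 at h
  rw [h, zero_mul]

omit [Fintype X] [Fintype Y] [Fintype Z] [Fintype W] in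
theorem EV_prod {X Y Z W : Type} [Fintype X] [Fintype Y] [Fintype Z] [Fintype W]
    (f : X → Y → K) (g : Z → W → K) : (∑ x, ∑ y, f x y) * (∑ z, ∑ t, g z t) =
      ∑ x, ∑ y, ∑ z, ∑ t, f x y * g z t := by
  rw [Finset.sum_mul]
  refine Finset.sum_congr rfl fun x _ => ?_
  rw [Finset.sum_mul]
  refine Finset.sum_congr rfl fun y _ => ?_
  rw [Finset.mul_sum]
  refine Finset.sum_congr rfl fun z _ => ?_
  rw [Finset.mul_sum]

theorem EV_AB (A : X → Y → K) (B : Z → W → K) :
    ev4 (fun x y z t => A x y * B z t) u v w q = ev2 A u v * ev2 B w q := by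
  unfold ev4 ev2
  rw [EV_prod]
  refine Finset.sum_congr rfl fun x _ => Finset.sum_congr rfl fun y _ =>
    Finset.sum_congr rfl fun z _ => Finset.sum_congr rfl fun t _ => by ring

theorem EV_CD (C : X → Z → K) (D : Y → W → K) :
    ev4 (fun x y z t => C x z * D y t) u v w q = ev2 C u w * ev2 D v q := by
  unfold ev4 ev2
  rw [EV_prod]
  refine Finset.sum_congr rfl fun x _ => ?_
  rw [Finset.sum_comm]
  refine Finset.sum_congr rfl fun z _ => Finset.sum_congr rfl fun y _ =>
    Finset.sum_congr rfl fun t _ => by ring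

theorem EV_EF (E : X → W → K) (F : Y → Z → K) :
    ev4 (fun x y z t => E x t * F y z) u v w q = ev2 E u q * ev2 F v w := by
  unfold ev4 ev2
  rw [EV_prod]
  refine Finset.sum_congr rfl fun x _ => ?_
  rw [Finset.sum_comm (s := (univ : Finset W))]
  refine Finset.sum_congr rfl fun y _ => ?_
  rw [Finset.sum_comm (s := (univ : Finset W))]
  refine Finset.sum_congr rfl fun z _ => Finset.sum_congr rfl fun t _ => by ring

end

theorem EV : EV_stmt := by
  intro K X Y Z W _ _ _ _ _ u v w q
  refine ⟨?_, ?_, ?_, ?_, fun T T' => EV_add u v w q T T'⟩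
  · intro r a a' b b' c c' d d' ha hb hc hd
    have h : ev4 (slSum a a' b b' c c' d d') u v w q =
        ev4 (fun x y z w => ∑ n, a n x * a' n y z w) u v w q +
        ev4 (fun x y z w => ∑ n, b n y * b' n x z w) u v w q +
        ev4 (fun x y z w => ∑ n, c n z * c' n x y w) u v w q +
        ev4 (fun x y z w => ∑ n, d n w * d' n x y z) u v w q := by
      rw [← EV_add, ← EV_add, ← EV_add]
      rfl
    rw [h, EV_sum u v w q (fun n x y z w => a n x * a' n y z w),
      EV_sum u v w q (fun n x y z w => b n y * b' n x z w),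
      EV_sum u v w q (fun n x y z w => c n z * c' n x y w),
      EV_sum u v w q (fun n x y z w => d n w * d' n x y z),
      Finset.sum_eq_zero fun n _ => EV_1 u v w q (a n) (a' n) (ha n),
      Finset.sum_eq_zero fun n _ => EV_2 u v w q (b n) (b' n) (hb n),
      Finset.sum_eq_zero fun n _ => EV_3 u v w q (c n) (c' n) (hc n),
      Finset.sum_eq_zero fun n _ => EV_4 u v w q (d n) (d' n) (hd n)]
    simp
  · intro a b t A B
    unfold pr
    rw [EV_sum u v w q (fun p x y z w => ∑ q, t p q * (A p x y * B q z w))]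
    refine Finset.sum_congr rfl fun i _ => ?_
    rw [EV_sum u v w q (fun q x y z w => t i q * (A i x y * B q z w))]
    refine Finset.sum_congr rfl fun j _ => ?_
    rw [EV_c u v w q (t i j) (fun x y z w => A i x y * B j z w), EV_AB]
  · intro a b t C D
    unfold pr
    rw [EV_sum u v w q (fun p x y z w => ∑ q, t p q * (C p x z * D q y w))]
    refine Finset.sum_congr rfl fun i _ => ?_
    rw [EV_sum u v w q (fun q x y z w => t i q * (C i x z * D q y w))]
    refine Finset.sum_congr rfl fun j _ => ?_
    rw [EV_c u v w q (t i j) (fun x y z w => C i x z * D j y w), EV_CD]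
  · intro a b t E F
    unfold pr
    rw [EV_sum u v w q (fun p x y z w => ∑ q, t p q * (E p x w * F q y z))]
    refine Finset.sum_congr rfl fun i _ => ?_
    rw [EV_sum u v w q (fun q x y z w => t i q * (E i x w * F q y z))]
    refine Finset.sum_congr rfl fun j _ => ?_
    rw [EV_c u v w q (t i j) (fun x y z w => E i x w * F j y z), EV_EF]

end Pool.Agent.helper35.MR
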